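import Pool.Agent.helper9.HX.Spec

set_option autoImplicit false

open scoped Classical

namespace Pool.Agent.helper9.HX

open Finset
open Pool.Agent.helper65.HC (V IsEig IsTop lam)
open Pool.Agent.helper9.HQ (Fam Dn E N Le hi c)
open Pool.Agent.helper9

theorem RES_hi {d : ℕ} (U : Fam d) (x : Finset (Fin d)) : x ∈ hi U ↔ x ∈ U ∧ 3 ≤ x.card := by
  unfold hi
  rw [mem_filter]

theorem RES_swap {d : ℕ} (U : Fam d) (f : Finset (Fin d) → ℝ) (hout : ∀ x, x ∉ U → f x = 0) :
    ∑ x ∈ hi U, ∑ i ∈ xᶜ, f x * f (insert i x) =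
      ∑ x ∈ hi U, ∑ i ∈ x, if x.erase i ∈ hi U then f x * f (x.erase i) else 0 := by
  rw [Finset.sum_comm' (s' := fun i => (hi U).filter fun x => i ∉ x) (t' := univ)
    (by intro x i; simp [mem_filter])]
  rw [Finset.sum_comm' (s := hi U) (t := fun x => x) (s' := fun i => (hi U).filter fun x => i ∈ x) (t' := univ)
    (by intro x i; simp [mem_filter])]
  refine Finset.sum_congr rfl (fun i _ => ?_)
  have h1 : ∑ x ∈ (hi U).filter (fun x => i ∉ x), f x * f (insert i x) =
      ∑ x ∈ (hi U).filter (fun x => i ∉ x ∧ insert i x ∈ hi U), f x * f (insert i x) := by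
    symm
    refine Finset.sum_subset (fun x hx => ?_) (fun x hx hn => ?_)
    · rw [mem_filter] at hx ⊢
      exact ⟨hx.1, hx.2.1⟩
    · rw [mem_filter] at hx hn
      have hni : insert i x ∉ hi U := fun h => hn ⟨hx.1, hx.2, h⟩
      have hnU : insert i x ∉ U := by
        intro hU
        apply hni
        rw [RES_hi]
        refine ⟨hU, ?_⟩
        have := (RES_hi U x).1 hx.1
        rw [card_insert_of_notMem hx.2]
        omega
      rw [hout _ hnU, mul_zero]
  have h2 : ∑ y ∈ (hi U).filter (fun y => i ∈ y), (if y.erase i ∈ hi U then f y * f (y.erase i) else 0) =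
      ∑ y ∈ (hi U).filter (fun y => i ∈ y ∧ y.erase i ∈ hi U), f y * f (y.erase i) := by
    rw [← Finset.sum_filter, Finset.filter_filter]
  rw [h1, h2]
  refine Finset.sum_nbij' (fun x => insert i x) (fun y => y.erase i) ?_ ?_ ?_ ?_ ?_
  · intro x hx
    rw [mem_filter] at hx ⊢
    refine ⟨hx.2.2, mem_insert_self i x, ?_⟩
    rw [erase_insert hx.2.1]
    exact hx.1
  · intro y hy
    rw [mem_filter] at hy ⊢
    refine ⟨hy.2.2, notMem_erase i y, ?_⟩
    rw [insert_erase hy.2.1]
    exact hy.1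
  · intro x hx
    rw [mem_filter] at hx
    exact erase_insert hx.2.1
  · intro y hy
    rw [mem_filter] at hy
    exact insert_erase hy.2.1
  · intro x hx
    rw [mem_filter] at hx
    rw [erase_insert hx.2.1]
    ring

theorem RES : RES_stmt := by
  intro d U l f L φ hP hφ hφ0 hL hLl
  have hN0 : 0 ≤ N (hi U) f := Finset.sum_nonneg (fun x _ => sq_nonneg _)
  -- the main identity
  have hid : l * N (hi U) f = ∑ x ∈ hi U, ∑ i ∈ x, f x * f (x.erase i) + ∑ x ∈ hi U, ∑ i ∈ xᶜ, f x * f (insert i x) := by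
    unfold N
    rw [Finset.mul_sum, ← Finset.sum_add_distrib]
    refine Finset.sum_congr rfl (fun x hx => ?_)
    have hxU : x ∈ U := ((RES_hi U x).1 hx).1
    have h1 := hP.eq x hxU
    rw [← Finset.mul_sum, ← Finset.mul_sum, ← mul_add, ← h1]
    ring
  have hsp : ∑ x ∈ hi U, ∑ i ∈ x, f x * f (x.erase i) ≤
      (∑ x ∈ hi U, ∑ i ∈ x, if x.erase i ∈ hi U then f x * f (x.erase i) else 0) + 3 * φ * ∑ x ∈ hi U, f x := by
    rw [Finset.mul_sum, ← Finset.sum_add_distrib]
    refine Finset.sum_le_sum (fun x hx => ?_)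
    obtain ⟨hxU, hx3⟩ := (RES_hi U x).1 hx
    by_cases hc : x.card = 3
    · have h1 : ∑ i ∈ x, f x * f (x.erase i) ≤ ∑ i ∈ x, f x * φ := by
        refine Finset.sum_le_sum (fun i hi' => ?_)
        refine mul_le_mul_of_nonneg_left ?_ (hP.nn x)
        refine hφ _ (hP.dn x hxU _ (erase_subset i x)) ?_
        rw [card_erase_of_mem hi']
        omega
      have h2 : ∑ i ∈ x, f x * φ = 3 * φ * f x := by
        rw [Finset.sum_const, hc]
        simp
        ring
      have h3 : 0 ≤ ∑ i ∈ x, (if x.erase i ∈ hi U then f x * f (x.erase i) else 0) := by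
        refine Finset.sum_nonneg (fun i _ => ?_)
        split_ifs
        · exact mul_nonneg (hP.nn _) (hP.nn _)
        · exact le_rfl
      linarith
    · have h1 : ∑ i ∈ x, f x * f (x.erase i) = ∑ i ∈ x, (if x.erase i ∈ hi U then f x * f (x.erase i) else 0) := by
        refine Finset.sum_congr rfl (fun i hi' => ?_)
        rw [if_pos]
        rw [RES_hi]
        refine ⟨hP.dn x hxU _ (erase_subset i x), ?_⟩
        rw [card_erase_of_mem hi']
        omega
      have h2 : 0 ≤ 3 * φ * f x := mul_nonneg (by positivity) (hP.nn x)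
      linarith
  have hEf : Ef (hi U) f = 2 * ∑ x ∈ hi U, ∑ i ∈ x, if x.erase i ∈ hi U then f x * f (x.erase i) else 0 := rfl
  have hsw := RES_swap U f hP.out
  have hS0 : 0 ≤ ∑ x ∈ hi U, f x := Finset.sum_nonneg (fun x _ => hP.nn x)
  have key : (l - L) * N (hi U) f ≤ 3 * φ * ∑ x ∈ hi U, f x := by
    rw [hsw] at hid
    have : (l - L) * N (hi U) f = l * N (hi U) f - L * N (hi U) f := by ring
    rw [this]
    linarith
  have hCS : (∑ x ∈ hi U, f x) ^ 2 ≤ (hi U).card * N (hi U) f := by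
    unfold N
    exact sq_sum_le_card_mul_sum_sq
  rcases hN0.eq_or_lt with h0 | hpos
  · rw [← h0, mul_zero]
    positivity
  · have hl0 : 0 ≤ l - L := sub_nonneg.2 hLl
    have h1 : ((l - L) * N (hi U) f) ^ 2 ≤ (3 * φ * ∑ x ∈ hi U, f x) ^ 2 :=
      pow_le_pow_left₀ (mul_nonneg hl0 hN0) key 2
    have h2 : (3 * φ * ∑ x ∈ hi U, f x) ^ 2 ≤ 9 * φ ^ 2 * ((hi U).card * N (hi U) f) := by
      have : (3 * φ * ∑ x ∈ hi U, f x) ^ 2 = 9 * φ ^ 2 * (∑ x ∈ hi U, f x) ^ 2 := by ring
      rw [this]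
      exact mul_le_mul_of_nonneg_left hCS (by positivity)
    have h3 : ((l - L) ^ 2 * N (hi U) f) * N (hi U) f ≤ (9 * φ ^ 2 * (hi U).card) * N (hi U) f := by
      have e1 : ((l - L) ^ 2 * N (hi U) f) * N (hi U) f = ((l - L) * N (hi U) f) ^ 2 := by ring
      have e2 : (9 * φ ^ 2 * (hi U).card) * N (hi U) f = 9 * φ ^ 2 * ((hi U).card * N (hi U) f) := by ring
      rw [e1, e2]
      exact h1.trans h2
    exact le_of_mul_le_mul_right h3 hpos

end Pool.Agent.helper9.HX
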